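import Pool.Agent.Helper6_ABCT.VN

/-!
# VB: purity of the boundary for one generic vertex (MP_a17fcb_ag)
-/

open MvPolynomial

namespace ABCT

namespace H6

open FlatCell

/-- the conclusion of (B) -/
def Concl (l : List ℕ) (r : ℕ) (z : Finset ℕ → ℝ) : Prop :=
  ∃ S', Net.Facet (Net.gen l r) S' ∧ z ∈ closure S'.flat.Z

theorem fresh (l : List ℕ) : ∃ q, q ∉ l := by
  obtain ⟨q, hq⟩ := Infinite.exists_notMem_finset l.toFinset
  rw [List.mem_toFinset] at hq
  exact ⟨q, hq⟩

/-- K: a valid split gives a facet containing `z` -/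
theorem facet_close (hD : DgenStmt) (hV : VtxGStmt) (L A R : List ℕ) (ρ d r' : ℕ)
    (hval : (Net.gen (L ++ A ++ R ++ [ρ]) (d + r')).Valid)
    (cA : (A.length = 2 ∧ d ≤ 1) ∨ (1 ≤ d ∧ d + 2 ≤ A.length))
    (cB : ((L ++ R).length = 1 ∧ 1 ≤ r' ∧ r' ≤ 2) ∨ (2 ≤ r' ∧ r' ≤ (L ++ R).length))
    (z : Finset ℕ → ℝ) (hz : z ∈ closure (Net.gen (L ++ A ++ R ++ [ρ]) (d + r')).flat.Z)
    (hz0 : z ≠ 0)
    (hs : ∀ I, z I ≠ 0 → I ∈ (L ++ A ++ R ++ [ρ]).toFinset.powersetCard (d + r'))
    (hd : ∀ I, z I ≠ 0 → (I ∩ A.toFinset).card = d ∨ (I ∩ A.toFinset).card = d + 1) :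
    Concl (L ++ A ++ R ++ [ρ]) (d + r') z := by
  obtain ⟨q, hq⟩ := fresh (L ++ A ++ R ++ [ρ])
  have hqL : q ∉ L := fun h => hq (by simp [h])
  have hqA : q ∉ A := fun h => hq (by simp [h])
  have hqR : q ∉ R ++ [ρ] := by
    intro h
    apply hq
    rw [List.append_assoc]
    exact List.mem_append_right _ h
  have hl := hval.1
  have hAn : A.Nodup := by
    have : A.Sublist (L ++ A ++ R ++ [ρ]) := by
      rw [List.append_assoc, List.append_assoc]
      exact (List.sublist_append_left A _).trans (List.sublist_append_right L _)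
    exact hl.sublist this
  have hA1 : (A ++ [q]).Nodup := by
    rw [List.nodup_append]
    refine ⟨hAn, List.nodup_singleton q, ?_⟩
    intro a ha b hb
    rw [List.mem_singleton] at hb
    subst hb
    intro h
    exact hqA (h ▸ ha)
  have hB1 : (L ++ [q] ++ R ++ [ρ]).Nodup := by
    have h1 : (L ++ (R ++ [ρ])).Nodup := by
      have : (L ++ (R ++ [ρ])).Sublist (L ++ A ++ R ++ [ρ]) := by
        rw [List.append_assoc, List.append_assoc]
        exact (List.sublist_append_right A _).append_left L
      exact hl.sublist this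
    have h2 : (q :: (L ++ (R ++ [ρ]))).Nodup := by
      rw [List.nodup_cons]
      refine ⟨?_, h1⟩
      rw [List.mem_append]
      rintro (h | h)
      · exact hqL h
      · exact hqR h
    have h3 : (L ++ [q] ++ R ++ [ρ]).Perm (q :: (L ++ (R ++ [ρ]))) := by
      rw [List.append_assoc, List.append_assoc]
      exact List.perm_middle
    exact h3.nodup_iff.mpr h2
  have hlA : (A ++ [q]).length = A.length + 1 := by simp
  have hlB : (L ++ [q] ++ R ++ [ρ]).length = (L ++ R).length + 2 := by
    simp only [List.length_append, List.length_singleton]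
    omega
  obtain ⟨SA, hSA⟩ : ∃ SA, Net.IsVtx (A ++ [q]) (d + 1) SA := by
    rcases cA with ⟨h1, h2⟩ | ⟨h1, h2⟩
    · rcases Nat.eq_zero_or_pos d with rfl | h3
      · exact ⟨_, Net.IsVtx.black _ (by omega)⟩
      · obtain rfl : d = 1 := by omega
        exact ⟨_, Net.IsVtx.white _ (by omega)⟩
    · exact ⟨_, Net.IsVtx.gen _ _ (by omega) (by omega)⟩
  obtain ⟨SB, hSB⟩ : ∃ SB, Net.IsVtx (L ++ [q] ++ R ++ [ρ]) r' SB := by
    rcases cB with ⟨h1, h2, h3⟩ | ⟨h1, h2⟩
    · rcases (by omega : r' = 1 ∨ r' = 2) with rfl | rfl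
      · exact ⟨_, Net.IsVtx.black _ (by omega)⟩
      · exact ⟨_, Net.IsVtx.white _ (by omega)⟩
    · exact ⟨_, Net.IsVtx.gen _ _ (by omega) (by omega)⟩
  have hF : Net.Facet (Net.gen (L ++ A ++ R ++ [ρ]) (d + r')) (Net.tsum SA SB q) :=
    Net.Facet.gen L A R ρ q d r' SA SB hq hSA hSB
  refine ⟨_, hF, ?_⟩
  refine hD (L ++ A ++ R ++ [ρ]) (d + r') hval _ hF z hz hz0 ?_
  intro I hI
  obtain ⟨⟨gA, -, hMA, -, -, -⟩, -⟩ := hV _ _ _ hSA hA1
  obtain ⟨⟨gB, -, hMB, -, -, -⟩, -⟩ := hV _ _ _ hSB hB1
  have hIs := Finset.mem_powersetCard.mp (hs I hI)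
  have hqI : q ∉ I := fun h => hq (List.mem_toFinset.mp (hIs.1 h))
  have hcard : (I ∩ A.toFinset).card + (I \ A.toFinset).card = d + r' := by
    rw [Finset.card_inter_add_card_sdiff, hIs.2]
  have hIB : I \ A.toFinset ⊆ (L ++ [q] ++ R ++ [ρ]).toFinset := by
    intro i hi
    rw [Finset.mem_sdiff, List.mem_toFinset] at hi
    have h1 := List.mem_toFinset.mp (hIs.1 hi.1)
    rw [List.mem_toFinset]
    simp only [List.mem_append, List.mem_singleton] at h1 ⊢
    tauto
  have hIA : I ∩ A.toFinset ⊆ (A ++ [q]).toFinset := by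
    intro i hi
    rw [Finset.mem_inter, List.mem_toFinset] at hi
    rw [List.mem_toFinset, List.mem_append]
    exact Or.inl hi.2
  have hqA' : q ∉ I ∩ A.toFinset := fun h => hqI (Finset.mem_inter.mp h).1
  have hqB' : q ∉ I \ A.toFinset := fun h => hqI (Finset.mem_sdiff.mp h).1
  rw [Net.M]
  simp only [Finset.mem_image, Finset.mem_filter, Finset.mem_product, Prod.exists]
  rcases hd I hI with h | h
  · refine ⟨insert q (I ∩ A.toFinset), I \ A.toFinset, ?_, ?_⟩
    · rw [hMA, hMB, Finset.mem_powersetCard, Finset.mem_powersetCard]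
      refine ⟨⟨⟨?_, ?_⟩, hIB, by omega⟩,
        Or.inl ⟨Finset.mem_insert_self _ _, hqB'⟩⟩
      · rw [Finset.insert_subset_iff]
        exact ⟨by simp, hIA⟩
      · rw [Finset.card_insert_of_notMem hqA', h]
    · ext i
      simp only [Finset.mem_erase, Finset.mem_union, Finset.mem_insert, Finset.mem_inter,
        Finset.mem_sdiff]
      constructor
      · rintro ⟨h1, (h2 | h2) | h2⟩
        · exact absurd h2 h1
        · exact h2.1
        · exact h2.1
      · intro h1
        refine ⟨fun h2 => hqI (h2 ▸ h1), ?_⟩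
        by_cases h3 : i ∈ A.toFinset
        · exact Or.inl (Or.inr ⟨h1, h3⟩)
        · exact Or.inr ⟨h1, h3⟩
  · refine ⟨I ∩ A.toFinset, insert q (I \ A.toFinset), ?_, ?_⟩
    · rw [hMA, hMB, Finset.mem_powersetCard, Finset.mem_powersetCard]
      refine ⟨⟨⟨hIA, h⟩, ?_, ?_⟩, Or.inr ⟨hqA', Finset.mem_insert_self _ _⟩⟩
      · rw [Finset.insert_subset_iff]
        exact ⟨by simp, hIB⟩
      · rw [Finset.card_insert_of_notMem hqB']
        omega
    · ext i
      simp only [Finset.mem_erase, Finset.mem_union, Finset.mem_insert, Finset.mem_inter,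
        Finset.mem_sdiff]
      constructor
      · rintro ⟨h1, h2 | (h2 | h2)⟩
        · exact h2.1
        · exact absurd h2 h1
        · exact h2.1
      · intro h1
        refine ⟨fun h2 => hqI (h2 ▸ h1), ?_⟩
        by_cases h3 : i ∈ A.toFinset
        · exact Or.inl ⟨h1, h3⟩
        · exact Or.inr (Or.inr ⟨h1, h3⟩)

/-- cyclic adjacency of labels -/
def Adj (l : List ℕ) (x y : ℕ) : Prop :=
  (∃ L R, l = L ++ [x, y] ++ R) ∨ (∃ M, l = [y] ++ M ++ [x])

theorem Adj.ne {l : List ℕ} {x y : ℕ} (hl : l.Nodup) (h : Adj l x y) : x ≠ y := by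
  rintro rfl
  rcases h with ⟨L, R, rfl⟩ | ⟨M, rfl⟩
  · have : ([x, x] : List ℕ).Sublist (L ++ [x, x] ++ R) := by
      rw [List.append_assoc]
      exact (List.sublist_append_left _ _).trans (List.sublist_append_right L _)
    have := hl.sublist this
    simp at this
  · rw [List.append_assoc, List.singleton_append, List.nodup_cons] at hl
    exact hl.1 (by simp)

theorem Adj.mem {l : List ℕ} {x y : ℕ} (h : Adj l x y) : x ∈ l ∧ y ∈ l := by
  rcases h with ⟨L, R, rfl⟩ | ⟨M, rfl⟩
  · simp
  · simp

/-- the standing hypotheses on `z` -/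
structure Hyp (l : List ℕ) (r : ℕ) (z : Finset ℕ → ℝ) : Prop where
  val : (Net.gen l r).Valid
  cl : z ∈ closure (Net.gen l r).flat.Z
  ne : z ≠ 0
  sup : ∀ I, z I ≠ 0 → I ∈ l.toFinset.powersetCard r

/-- counting on a set and its complement -/
theorem card_compl {l : List ℕ} {r : ℕ} {I A B : Finset ℕ} (hI : I ∈ l.toFinset.powersetCard r)
    (hAB : l.toFinset ⊆ A ∪ B) (hd : Disjoint A B) : (I ∩ A).card + (I ∩ B).card = r := by
  rw [Finset.mem_powersetCard] at hI
  rw [← hI.2, ← Finset.card_union_of_disjoint]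
  · congr 1
    rw [← Finset.inter_union_distrib_left]
    exact Finset.inter_eq_left.mpr (hI.1.trans hAB)
  · exact Disjoint.mono Finset.inter_subset_right Finset.inter_subset_right hd

/-- K with the split on an initial or middle interval whose complement is short -/
theorem facet_close' (hD : DgenStmt) (hV : VtxGStmt) {l : List ℕ} {r : ℕ} {z : Finset ℕ → ℝ}
    (h : Hyp l r z) (L A R : List ℕ) (ρ d r' : ℕ) (hl : l = L ++ A ++ R ++ [ρ]) (hr : r = d + r')
    (cA : (A.length = 2 ∧ d ≤ 1) ∨ (1 ≤ d ∧ d + 2 ≤ A.length))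
    (cB : ((L ++ R).length = 1 ∧ 1 ≤ r' ∧ r' ≤ 2) ∨ (2 ≤ r' ∧ r' ≤ (L ++ R).length))
    (hd : ∀ I, z I ≠ 0 → (I ∩ A.toFinset).card = d ∨ (I ∩ A.toFinset).card = d + 1) :
    Concl l r z := by
  subst hl hr
  exact facet_close hD hV L A R ρ d r' h.val cA cB z h.cl h.ne h.sup hd

/-- P: facets from adjacent pairs -/
theorem facet_pair (hD : DgenStmt) (hV : VtxGStmt) {l : List ℕ} {r : ℕ} {z : Finset ℕ → ℝ}
    (h : Hyp l r z) (x y d : ℕ) (hxy : Adj l x y)
    (hnum : (d = 0 ∧ (r + 3 ≤ l.length ∨ l.length = 4)) ∨ (d = 1 ∧ (3 ≤ r ∨ l.length = 4)))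
    (hd : ∀ I, z I ≠ 0 → (I ∩ {x, y}).card = d ∨ (I ∩ {x, y}).card = d + 1) :
    Concl l r z := by
  obtain ⟨hn, hr2, hr3⟩ := h.val
  rcases hxy with ⟨L, R, hl⟩ | ⟨M, hl⟩
  · rcases List.eq_nil_or_concat R with rfl | ⟨R', ρ, rfl⟩
    · -- the pair contains the last label
      have hlen : l.length = L.length + 2 := by rw [hl]; simp
      refine facet_close' hD hV h [] L [x] y (r - d - 1) (d + 1) (by rw [hl]; simp) (by omega)
        ?_ ?_ ?_
      · omega
      · exact Or.inl ⟨by simp, by omega, by omega⟩
      · intro I hI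
        have h1 := card_compl (A := L.toFinset) (B := {x, y}) (h.sup I hI) (by
          intro i hi
          rw [hl] at hi
          simp at hi ⊢
          tauto) (by
          rw [hl] at hn
          simp only [List.append_nil] at hn
          rw [List.nodup_append] at hn
          rw [Finset.disjoint_left]
          intro a ha hb
          exact hn.2.2 a (List.mem_toFinset.mp ha) a (by simpa using hb) rfl)
        have h2 := hd I hI
        omega
    · have hlen : l.length = L.length + 2 + R'.length + 1 := by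
        rw [hl]; simp only [List.concat_eq_append, List.length_append, List.length_cons, List.length_nil]; omega
      refine facet_close' hD hV h L [x, y] R' ρ d (r - d) (by rw [hl]; simp) (by omega) ?_ ?_ ?_
      · exact Or.inl ⟨by simp, by omega⟩
      · simp only [List.length_append]
        omega
      · intro I hI
        have : ([x, y] : List ℕ).toFinset = {x, y} := by simp
        rw [this]
        exact hd I hI
  · have hlen : l.length = M.length + 2 := by
      rw [hl]; simp only [List.length_append, List.length_singleton]; omega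
    refine facet_close' hD hV h [y] M [] x (r - d - 1) (d + 1) (by rw [hl]; simp) (by omega)
      ?_ ?_ ?_
    · omega
    · exact Or.inl ⟨by simp, by omega, by omega⟩
    · intro I hI
      have h1 := card_compl (A := M.toFinset) (B := {x, y}) (h.sup I hI) (by
        intro i hi
        rw [hl] at hi
        simp at hi ⊢
        tauto) (by
        rw [hl] at hn
        rw [List.nodup_append, List.nodup_append] at hn
        rw [Finset.disjoint_left]
        intro a ha hb
        rw [Finset.mem_insert, Finset.mem_singleton] at hb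
        rcases hb with rfl | rfl
        · exact hn.2.2 a (by simp [List.mem_toFinset.mp ha]) a (by simp) rfl
        · exact hn.1.2.2 a (by simp) a (List.mem_toFinset.mp ha) rfl)
      have h2 := hd I hI
      omega

/-- the data of two complementary cyclic intervals with at least two elements each -/
structure Split (l : List ℕ) (A B : Finset ℕ) : Prop where
  cov : l.toFinset ⊆ A ∪ B
  dis : Disjoint A B
  adjA : ∃ x x', Adj l x x' ∧ x ∈ A ∧ x' ∈ A
  adjB : ∃ y y', Adj l y y' ∧ y ∈ B ∧ y' ∈ B

theorem Split.symm {l : List ℕ} {A B : Finset ℕ} (h : Split l A B) : Split l B A :=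
  ⟨by rw [Finset.union_comm]; exact h.cov, h.dis.symm, h.adjB, h.adjA⟩

theorem pair_card {x y : ℕ} (h : x ≠ y) : ({x, y} : Finset ℕ).card = 2 := Finset.card_pair h

theorem inter_pair_le {x y : ℕ} (I : Finset ℕ) : (I ∩ {x, y}).card ≤ 2 :=
  (Finset.card_le_card Finset.inter_subset_right).trans Finset.card_le_two

/-- PAR -/
theorem facet_par (hD : DgenStmt) (hV : VtxGStmt) {l : List ℕ} {r : ℕ} {z : Finset ℕ → ℝ}
    (h : Hyp l r z) {A B : Finset ℕ} (hAB : Split l A B)
    (hpar : ∀ I, z I ≠ 0 → (I ∩ A).card ≤ 1) : Concl l r z := by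
  obtain ⟨hn, hr2, hr3⟩ := h.val
  obtain ⟨x, x', hx, hxA, hxA'⟩ := hAB.adjA
  obtain ⟨y, y', hy, hyB, hyB'⟩ := hAB.adjB
  by_cases hc : r + 3 ≤ l.length ∨ l.length = 4
  · refine facet_pair hD hV h x x' 0 hx (Or.inl ⟨rfl, hc⟩) ?_
    intro I hI
    have h1 : I ∩ {x, x'} ⊆ I ∩ A := by
      apply Finset.inter_subset_inter_left
      intro i hi
      rw [Finset.mem_insert, Finset.mem_singleton] at hi
      rcases hi with rfl | rfl <;> assumption
    have h2 := Finset.card_le_card h1
    have h3 := hpar I hI
    omega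
  · refine facet_pair hD hV h y y' 1 hy (Or.inr ⟨rfl, by omega⟩) ?_
    intro I hI
    have h0 : I ⊆ l.toFinset ∧ I.card = r := Finset.mem_powersetCard.mp (h.sup I hI)
    have h4 := inter_pair_le (x := y) (y := y') I
    by_contra hcon
    have h5 : (I ∩ {y, y'}).card = 0 := by omega
    rw [Finset.card_eq_zero] at h5
    have h6 : I ⊆ l.toFinset \ {y, y'} := by
      intro i hi
      rw [Finset.mem_sdiff]
      refine ⟨h0.1 hi, fun h7 => ?_⟩
      have : i ∈ I ∩ {y, y'} := Finset.mem_inter.mpr ⟨hi, h7⟩
      rw [h5] at this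
      exact absurd this (Finset.notMem_empty i)
    have h7 : ({y, y'} : Finset ℕ) ⊆ l.toFinset := by
      intro i hi
      rw [Finset.mem_insert, Finset.mem_singleton] at hi
      rw [List.mem_toFinset]
      rcases hi with rfl | rfl
      · exact hy.mem.1
      · exact hy.mem.2
    have h8 : (l.toFinset \ {y, y'}).card = l.length - 2 := by
      rw [Finset.card_sdiff_of_subset h7, toFinset_card_eq hn, pair_card (hy.ne hn)]
    have h9 : I = l.toFinset \ {y, y'} := Finset.eq_of_subset_of_card_le h6 (by omega)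
    have hdis := Finset.disjoint_left.mp hAB.dis
    have h10 : ({x, x'} : Finset ℕ) ⊆ I ∩ A := by
      intro i hi
      rw [Finset.mem_insert, Finset.mem_singleton] at hi
      rw [Finset.mem_inter, h9, Finset.mem_sdiff, List.mem_toFinset, Finset.mem_insert,
        Finset.mem_singleton]
      have hiA : i ∈ A := by rcases hi with rfl | rfl <;> assumption
      have hil : i ∈ l := by
        rcases hi with rfl | rfl
        · exact hx.mem.1
        · exact hx.mem.2
      refine ⟨⟨hil, ?_⟩, hiA⟩
      rintro (rfl | rfl)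
      · exact hdis hiA hyB
      · exact hdis hiA hyB'
    have h11 := Finset.card_le_card h10
    rw [pair_card (hx.ne hn)] at h11
    have h12 := hpar I hI
    omega

/-- SER -/
theorem facet_ser (hD : DgenStmt) (hV : VtxGStmt) {l : List ℕ} {r : ℕ} {z : Finset ℕ → ℝ}
    (h : Hyp l r z) {A B : Finset ℕ} (hAB : Split l A B)
    (hser : ∀ I, z I ≠ 0 → A.card ≤ (I ∩ A).card + 1) : Concl l r z := by
  obtain ⟨hn, hr2, hr3⟩ := h.val
  obtain ⟨x, x', hx, hxA, hxA'⟩ := hAB.adjA
  obtain ⟨y, y', hy, hyB, hyB'⟩ := hAB.adjB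
  have hxs : ({x, x'} : Finset ℕ) ⊆ A := by
    intro i hi
    rw [Finset.mem_insert, Finset.mem_singleton] at hi
    rcases hi with rfl | rfl <;> assumption
  have hx2 := pair_card (hx.ne hn)
  by_cases hc : 3 ≤ r ∨ l.length = 4
  · refine facet_pair hD hV h x x' 1 hx (Or.inr ⟨rfl, hc⟩) ?_
    intro I hI
    have h4 := inter_pair_le (x := x) (y := x') I
    by_contra hcon
    have h5 : (I ∩ {x, x'}).card = 0 := by omega
    rw [Finset.card_eq_zero] at h5
    have h6 : I ∩ A ⊆ A \ {x, x'} := by
      intro i hi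
      rw [Finset.mem_inter] at hi
      rw [Finset.mem_sdiff]
      refine ⟨hi.2, fun h7 => ?_⟩
      have : i ∈ I ∩ {x, x'} := Finset.mem_inter.mpr ⟨hi.1, h7⟩
      rw [h5] at this
      exact absurd this (Finset.notMem_empty i)
    have h7 := Finset.card_le_card h6
    rw [Finset.card_sdiff_of_subset hxs, hx2] at h7
    have h8 := Finset.card_le_card hxs
    have h9 := hser I hI
    omega
  · refine facet_pair hD hV h y y' 0 hy (Or.inl ⟨rfl, by omega⟩) ?_
    intro I hI
    have h0 : I ⊆ l.toFinset ∧ I.card = r := Finset.mem_powersetCard.mp (h.sup I hI)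
    have h4 := inter_pair_le (x := y) (y := y') I
    by_contra hcon
    have h5 : (I ∩ {y, y'}).card = 2 := by omega
    have h6 : I ∩ {y, y'} = {y, y'} :=
      Finset.eq_of_subset_of_card_le Finset.inter_subset_right
        (by rw [pair_card (hy.ne hn)]; omega)
    have h6' : I ∩ {y, y'} = I :=
      Finset.eq_of_subset_of_card_le Finset.inter_subset_left (by omega)
    have h7 : I = {y, y'} := h6'.symm.trans h6
    have hdis := Finset.disjoint_left.mp hAB.dis
    have h8 : I ∩ A = ∅ := by
      rw [h7]
      apply Finset.eq_empty_of_forall_notMem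
      intro i hi
      rw [Finset.mem_inter, Finset.mem_insert, Finset.mem_singleton] at hi
      obtain ⟨h9, h10⟩ := hi
      rcases h9 with rfl | rfl
      · exact hdis h10 hyB
      · exact hdis h10 hyB'
    have h9 := hser I hI
    rw [h8, Finset.card_empty] at h9
    have h10 := Finset.card_le_card hxs
    omega

/-- intervals of the list split it -/
theorem split_of_interval (L A R : List ℕ) (hl : (L ++ A ++ R).Nodup) (hA : 2 ≤ A.length)
    (hB : 2 ≤ (L ++ R).length) : Split (L ++ A ++ R) A.toFinset (L ++ R).toFinset := by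
  refine ⟨?_, ?_, ?_, ?_⟩
  · intro i hi
    simp only [List.mem_toFinset, List.mem_append, Finset.mem_union] at hi ⊢
    tauto
  · rw [List.nodup_append, List.nodup_append] at hl
    rw [Finset.disjoint_left]
    intro a ha hb
    rw [List.mem_toFinset] at ha hb
    rw [List.mem_append] at hb
    rcases hb with hb | hb
    · exact hl.1.2.2 a hb a ha rfl
    · exact hl.2.2 a (List.mem_append_right _ ha) a hb rfl
  · match A, hA with
    | x :: x' :: A', _ =>
      exact ⟨x, x', Or.inl ⟨L, A' ++ R, by simp⟩, by simp, by simp⟩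
  · by_cases h1 : 2 ≤ L.length
    · match L, h1 with
      | y :: y' :: L', _ =>
        exact ⟨y, y', Or.inl ⟨[], L' ++ A ++ R, by simp⟩, by simp, by simp⟩
    · by_cases h2 : 2 ≤ R.length
      · match R, h2 with
        | y :: y' :: R', _ =>
          exact ⟨y, y', Or.inl ⟨L ++ A, R', by simp⟩, by simp, by simp⟩
      · rw [List.length_append] at hB
        have h3 : L.length = 1 := by omega
        have h4 : R.length = 1 := by omega
        obtain ⟨a, rfl⟩ := List.length_eq_one_iff.mp h3
        obtain ⟨b, rfl⟩ := List.length_eq_one_iff.mp h4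
        exact ⟨b, a, Or.inr ⟨A, by simp⟩, by simp, by simp⟩

/-- every label lies in a two-element interval -/
theorem exists_pair_interval (l : List ℕ) (i : ℕ) (hi : i ∈ l) (h : 2 ≤ l.length) :
    ∃ L A R : List ℕ, l = L ++ A ++ R ∧ A.length = 2 ∧ i ∈ A := by
  obtain ⟨L, R, rfl⟩ := List.append_of_mem hi
  match R with
  | [] =>
    rcases List.eq_nil_or_concat L with rfl | ⟨L', j, rfl⟩
    · simp at h
    · exact ⟨L', [j, i], [], by simp, by simp, by simp⟩
  | j :: R' => exact ⟨L, [i, j], R', by simp, by simp, by simp⟩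

/-- VB -/
theorem vb (hD : DgenStmt) (hV : VtxGStmt) (hSt : StructStmt) (hUn : UniformStmt)
    (hZ : ZvtxStmt) (hCl : ClosedStmt) : BgenStmt := by
  intro l r hval z hz hz0 hzZ
  obtain ⟨hn, hr2, hr3⟩ := hval
  have hZe : (Net.gen l r).flat.Z = ZV l r :=
    hZ.1 l r (Net.gen l r) (Net.IsVtx.gen l r hr2 hr3) hn
  have hz1 : z ∈ closure (ZV l r) := by rw [← hZe]; exact hz
  obtain ⟨hX, h0⟩ := hCl l r hz1
  have hH : Hyp l r z := ⟨⟨hn, hr2, hr3⟩, hz, hz0, XV_supp hX⟩
  show Concl l r z
  have hI : ∃ I ∈ l.toFinset.powersetCard r, z I = 0 := by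
    by_contra h
    apply hzZ
    rw [hZe]
    refine hUn l r hn hr2 hr3 z hX ?_
    intro I hI
    exact lt_of_le_of_ne (h0 I) (fun h2 => h ⟨I, hI, h2.symm⟩)
  by_cases hal : ∀ i ∈ l, AliveV z i
  · obtain ⟨L, A, R, d, rfl, hA, hA2, hd⟩ := hSt l r hn hr2 hr3 z hX h0 hal hI
    have hlen : (L ++ A ++ R).length = A.length + (L ++ R).length := by
      simp only [List.length_append]
      omega
    have hS := split_of_interval L A R hn hA (by omega)
    have hAn : A.Nodup := by
      have : A.Sublist (L ++ A ++ R) := by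
        rw [List.append_assoc]
        exact (List.sublist_append_left A R).trans (List.sublist_append_right L (A ++ R))
      exact hn.sublist this
    have hBn : (L ++ R).Nodup := by
      have : (L ++ R).Sublist (L ++ A ++ R) := by
        rw [List.append_assoc]
        exact (List.sublist_append_right A R).append_left L
      exact hn.sublist this
    have hAc := toFinset_card_eq hAn
    have hBc := toFinset_card_eq hBn
    have hcc : ∀ I, z I ≠ 0 →
        (I ∩ A.toFinset).card + (I ∩ (L ++ R).toFinset).card = r := fun I hI =>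
      card_compl (hH.sup I hI) hS.cov hS.dis
    by_cases c1 : d = 0
    · refine facet_par hD hV hH hS ?_
      intro I hI
      have := hd I hI
      omega
    by_cases c2 : A.length ≤ d + 1
    · refine facet_ser hD hV hH hS ?_
      intro I hI
      have := hd I hI
      omega
    by_cases c3 : r ≤ d + 1
    · refine facet_par hD hV hH hS.symm ?_
      intro I hI
      have := hd I hI
      have := hcc I hI
      omega
    by_cases c4 : (L ++ R).length + d ≤ r
    · refine facet_ser hD hV hH hS.symm ?_
      intro I hI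
      have := hd I hI
      have := hcc I hI
      omega
    rcases List.eq_nil_or_concat R with hR | ⟨R', ρ, hR⟩
    · subst hR
      rcases List.eq_nil_or_concat A with hA' | ⟨A', ρ, hA'⟩
      · rw [hA'] at hA
        simp at hA
      · have hAl : A.length = A'.length + 1 := by rw [hA']; simp
        simp only [List.append_nil] at c4 hlen hA2 hcc
        refine facet_close' hD hV hH [] L A' ρ (r - d - 1) (d + 1) (by rw [hA']; simp)
          (by omega) ?_ ?_ ?_
        · right
          omega
        · simp only [List.nil_append]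
          right
          omega
        · intro I hI
          have h1 := hd I hI
          have h2 := hcc I hI
          omega
    · have hRl : (L ++ R).length = (L ++ R').length + 1 := by
        rw [hR]
        simp only [List.concat_eq_append, List.length_append, List.length_singleton]
        omega
      refine facet_close' hD hV hH L A R' ρ d (r - d) (by rw [hR]; simp) (by omega) ?_ ?_ hd
      · right
        omega
      · right
        omega
  · push Not at hal
    obtain ⟨i, hi, hali⟩ := hal
    obtain ⟨L, A, R, hl, hA, hiA⟩ := exists_pair_interval l i hi (by omega)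
    have hlen : l.length = A.length + (L ++ R).length := by
      rw [hl]
      simp only [List.length_append]
      omega
    have hn' := hn
    rw [hl] at hn'
    have hS := split_of_interval L A R hn' (by omega) (by omega)
    rw [← hl] at hS
    have hAn : A.Nodup := by
      have : A.Sublist (L ++ A ++ R) := by
        rw [List.append_assoc]
        exact (List.sublist_append_left A R).trans (List.sublist_append_right L (A ++ R))
      exact hn'.sublist this
    have hAc := toFinset_card_eq hAn
    have hiA' : i ∈ A.toFinset := List.mem_toFinset.mpr hiA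
    unfold AliveV at hali
    rw [not_and_or] at hali
    rcases hali with h | h
    · refine facet_par hD hV hH hS ?_
      intro I hI
      have h1 : i ∉ I := fun hiI => h ⟨I, hI, hiI⟩
      have h2 : I ∩ A.toFinset ⊆ A.toFinset.erase i := by
        intro j hj
        rw [Finset.mem_inter] at hj
        rw [Finset.mem_erase]
        exact ⟨fun h3 => h1 (h3 ▸ hj.1), hj.2⟩
      have h3 := Finset.card_le_card h2
      rw [Finset.card_erase_of_mem hiA'] at h3
      omega
    · refine facet_ser hD hV hH hS ?_
      intro I hI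
      have h1 : i ∈ I := by
        by_contra hiI
        exact h ⟨I, hI, hiI⟩
      have h2 : 0 < (I ∩ A.toFinset).card :=
        Finset.card_pos.mpr ⟨i, Finset.mem_inter.mpr ⟨h1, hiA'⟩⟩
      omega

end H6

end ABCT
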