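import Pool.Agent.Helper32_ABCT.Stmts2

/-!
# VN: the nonnegative part is the closure of the positive part (MP_a17fcb_ag)
-/

open MvPolynomial

namespace ABCT

namespace H6

open FlatCell

/-- points of `XV l r` are supported on the `r`-subsets of the list -/
theorem XV_supp {l : List ℕ} {r : ℕ} {z : Finset ℕ → ℝ} (hz : z ∈ XV l r) (I : Finset ℕ)
    (h : z I ≠ 0) : I ∈ l.toFinset.powersetCard r := by
  by_contra hI
  apply h
  have h1 := hz (X I) (fun κ c t => by
    rw [aeval_X]
    simp only [Q, if_neg hI])
  rw [aeval_X] at h1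
  exact_mod_cast h1

/-- an increasing assignment of values along a list without duplicates -/
theorem exists_incr (l : List ℕ) (hl : l.Nodup) :
    ∃ t : ℕ → ℝ, l.Pairwise (fun a b => t a < t b) := by
  refine ⟨fun i => (l.idxOf i : ℝ), ?_⟩
  rw [List.pairwise_iff_getElem]
  intro i j hi hj hij
  have h1 : l.idxOf l[i] = i := hl.idxOf_getElem i hi
  have h2 : l.idxOf l[j] = j := hl.idxOf_getElem j hj
  simp only [h1, h2]
  exact_mod_cast hij

theorem Q_smul {R : Type*} [CommRing R] (l : List ℕ) (r : ℕ) (κ a : R) (c t : ℕ → R) :
    Q l r (a * κ) c t = a • Q l r κ c t := by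
  funext I
  simp only [Q, Pi.smul_apply, smul_eq_mul]
  split_ifs with h
  · ring
  · simp

/-- zero lies in the closure -/
theorem zero_mem_closure (l : List ℕ) (r : ℕ) (hl : l.Nodup) :
    (0 : Finset ℕ → ℝ) ∈ closure (ZV l r) := by
  obtain ⟨t, ht⟩ := exists_incr l hl
  set y := Q l r (1 : ℝ) (fun _ => 1) t with hy
  have h1 : Filter.Tendsto (fun n : ℕ => ((1 : ℝ) / ((n : ℝ) + 1)) • y) Filter.atTop
      (nhds ((0 : ℝ) • y)) :=
    tendsto_one_div_add_atTop_nhds_zero_nat.smul_const y
  rw [zero_smul] at h1
  refine mem_closure_of_tendsto h1 (Filter.Eventually.of_forall fun n => ?_)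
  refine ⟨(1 : ℝ) / ((n : ℝ) + 1), fun _ => 1, t, by positivity, fun _ => one_pos, ht, ?_⟩
  rw [hy, ← Q_smul, mul_one]

/-- nonnegative vectors supported on the `r`-subsets are limits of positive ones -/
theorem triv_closure {l : List ℕ} {r : ℕ}
    (hZ : ZV l r = {z | (∀ I ∈ l.toFinset.powersetCard r, 0 < z I) ∧
      ∀ I, I ∉ l.toFinset.powersetCard r → z I = 0})
    {z : Finset ℕ → ℝ} (hz : ∀ I, z I ≠ 0 → I ∈ l.toFinset.powersetCard r) (h0 : Nonneg z) :
    z ∈ closure (ZV l r) := by
  set y : Finset ℕ → ℝ := fun I => if I ∈ l.toFinset.powersetCard r then 1 else 0 with hy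
  have h1 : Filter.Tendsto (fun n : ℕ => z + ((1 : ℝ) / ((n : ℝ) + 1)) • y) Filter.atTop
      (nhds (z + (0 : ℝ) • y)) :=
    (tendsto_one_div_add_atTop_nhds_zero_nat.smul_const y).const_add z
  rw [zero_smul, add_zero] at h1
  refine mem_closure_of_tendsto h1 (Filter.Eventually.of_forall fun n => ?_)
  rw [hZ]
  have hn : (0 : ℝ) < 1 / ((n : ℝ) + 1) := by positivity
  constructor
  · intro I hI
    simp only [hy, Pi.add_apply, Pi.smul_apply, if_pos hI, smul_eq_mul, mul_one]
    have := h0 I
    linarith
  · intro I hI
    have h2 : z I = 0 := by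
      by_contra h
      exact hI (hz I h)
    simp only [hy, Pi.add_apply, Pi.smul_apply, if_neg hI, smul_eq_mul, mul_zero, h2, add_zero]

/-- a vector in which `i` is a loop is its own deletion -/
theorem del_eq_of_loop {i : ℕ} {z : Finset ℕ → ℝ} (h : ∀ I, z I ≠ 0 → i ∉ I) : del i z = z := by
  funext I
  simp only [del]
  split_ifs with hi
  · by_contra h1
    exact h I (fun h2 => h1 h2.symm) hi
  · rfl

/-- a vector in which `i` is a coloop is recovered from its contraction -/
theorem addco_con_of_coloop {i : ℕ} {z : Finset ℕ → ℝ} (h : ∀ I, z I ≠ 0 → i ∈ I) :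
    addco i (con i z) = z := by
  funext I
  simp only [addco, con]
  split_ifs with hi h2
  · exact absurd h2 (Finset.notMem_erase i I)
  · rw [Finset.insert_erase hi]
  · by_contra h1
    exact hi (h I (fun h2 => h1 h2.symm))

theorem con_nonneg {i : ℕ} {z : Finset ℕ → ℝ} (h : Nonneg z) : Nonneg (con i z) := by
  intro I
  simp only [con]
  split_ifs
  · exact le_rfl
  · exact h _

theorem toFinset_card_eq {l : List ℕ} (h : l.Nodup) : l.toFinset.card = l.length :=
  List.toFinset_card_of_nodup h

/-- supports of points of `XV` bound the rank -/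
theorem XV_rank_le {l : List ℕ} {r : ℕ} (hl : l.Nodup) {z : Finset ℕ → ℝ} (hz : z ∈ XV l r)
    (h0 : z ≠ 0) : r ≤ l.length := by
  obtain ⟨I, hI⟩ := Function.ne_iff.mp h0
  have h1 := XV_supp hz I hI
  rw [Finset.mem_powersetCard] at h1
  have h2 := Finset.card_le_card h1.1
  rw [toFinset_card_eq hl] at h2
  omega

/-- `prodv` as a 2-sum with a loop on the left -/
theorem comb_loop_left (A : Finset ℕ) (q : ℕ) (hq : q ∉ A) (y x : Finset ℕ → ℝ)
    (hy : ∀ I, y I ≠ 0 → q ∉ I) (hx : ∀ I, x I ≠ 0 → q ∉ I) :
    comb A q y (addco q x) = prodv A y x := by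
  funext I
  simp only [comb, prodv, addco]
  by_cases hI : q ∈ I
  · rw [if_pos hI]
    by_cases h : x (I \ A) = 0
    · rw [h, mul_zero]
    · exact absurd (Finset.mem_sdiff.mpr ⟨hI, hq⟩) (hx _ h)
  · have h1 : q ∉ I \ A := fun h => hI (Finset.mem_sdiff.mp h).1
    have h2 : y (insert q (I ∩ A)) = 0 := by
      by_contra h
      exact hy _ h (Finset.mem_insert_self _ _)
    rw [if_neg hI, if_pos (Finset.mem_insert_self _ _), Finset.erase_insert h1, h2, zero_mul,
      add_zero]

/-- `prodv` as a 2-sum with a coloop on the left -/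
theorem comb_coloop_left (A : Finset ℕ) (q : ℕ) (hq : q ∉ A) (y x : Finset ℕ → ℝ)
    (hx : ∀ I, x I ≠ 0 → q ∉ I) :
    comb A q (addco q y) x = prodv A y x := by
  funext I
  simp only [comb, prodv, addco]
  by_cases hI : q ∈ I
  · rw [if_pos hI]
    by_cases h : x (I \ A) = 0
    · rw [h, mul_zero]
    · exact absurd (Finset.mem_sdiff.mpr ⟨hI, hq⟩) (hx _ h)
  · have h1 : q ∉ I ∩ A := fun h => hI (Finset.mem_inter.mp h).1
    rw [if_neg hI, if_pos (Finset.mem_insert_self _ _), Finset.erase_insert h1, if_neg h1,
      zero_mul, zero_add]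

theorem erase_append_q {A : List ℕ} {q : ℕ} (hq : q ∉ A) : (A ++ [q]).erase q = A := by
  rw [List.erase_append_right _ hq]
  simp

theorem erase_mid_q {L R : List ℕ} {q : ℕ} (hq : q ∉ L) : (L ++ [q] ++ R).erase q = L ++ R := by
  rw [List.append_assoc, List.erase_append_right _ hq]
  simp

/-- direct sums of closure points are closure points -/
theorem prodv_closure (hSm : SmoothStmt) (hLC : LoopColoopStmt) (L A R : List ℕ) (r a q : ℕ)
    (hl : (L ++ A ++ R).Nodup) (hq : q ∉ L ++ A ++ R) (har : a ≤ r) (hr0 : 1 ≤ r)
    (hr1 : r < (L ++ A ++ R).length) (hA : 1 ≤ A.length) (hB : 1 ≤ (L ++ R).length)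
    (haA : a ≤ A.length) (haB : r - a ≤ (L ++ R).length)
    (y x : Finset ℕ → ℝ) (hy : y ∈ closure (ZV A a)) (hx : x ∈ closure (ZV (L ++ R) (r - a)))
    (hyq : ∀ I, y I ≠ 0 → q ∉ I) (hxq : ∀ I, x I ≠ 0 → q ∉ I) :
    prodv A.toFinset y x ∈ closure (ZV (L ++ A ++ R) r) := by
  have hqL : q ∉ L := fun h => hq (by simp [h])
  have hqA : q ∉ A := fun h => hq (by simp [h])
  have hqR : q ∉ R := fun h => hq (by simp [h])
  have hqA' : q ∉ A.toFinset := by simpa using hqA
  have hA1 : (A ++ [q]).Nodup := by
    rw [List.nodup_append] at hl ⊢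
    obtain ⟨h1, h2, h3⟩ := hl
    rw [List.nodup_append] at h1
    refine ⟨h1.2.1, List.nodup_singleton q, ?_⟩
    intro a ha b hb
    rw [List.mem_singleton] at hb
    subst hb
    intro h
    exact hqA (h ▸ ha)
  have hB1 : (L ++ [q] ++ R).Nodup := by
    have h1 : (L ++ R).Nodup := by
      have : (L ++ R).Sublist (L ++ A ++ R) := by
        rw [List.append_assoc]
        exact (List.sublist_append_right A R).append_left L
      exact hl.sublist this
    have h2 : (q :: (L ++ R)).Nodup := by
      rw [List.nodup_cons]
      refine ⟨?_, h1⟩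
      rw [List.mem_append]
      rintro (h | h)
      · exact hqL h
      · exact hqR h
    have h3 : (L ++ [q] ++ R).Perm (q :: (L ++ R)) := by
      rw [List.append_assoc]
      exact List.perm_middle
    exact h3.nodup_iff.mpr h2
  have hlen : (L ++ A ++ R).length = A.length + (L ++ R).length := by
    simp only [List.length_append]
    omega
  have hlenA : (A ++ [q]).length = A.length + 1 := by simp
  have hlenB : (L ++ [q] ++ R).length = (L ++ R).length + 1 := by
    simp only [List.length_append, List.length_singleton]
    omega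
  by_cases h1 : 1 ≤ a ∧ r - a < (L ++ R).length
  · obtain ⟨h1, h2⟩ := h1
    rw [← comb_loop_left A.toFinset q hqA' y x hyq hxq]
    have hy' : y ∈ closure (ZV (A ++ [q]) a) := by
      refine hLC.1 (A ++ [q]) a q hA1 (by simp) (by omega) y ?_
      rw [erase_append_q hqA]
      exact hy
    have hx' : addco q x ∈ closure (ZV (L ++ [q] ++ R) (r - a + 1)) := by
      refine hLC.2 (L ++ [q] ++ R) (r - a + 1) q hB1 (by simp) (by omega) (by omega) x ?_
      rw [erase_mid_q hqL]
      exact hx
    obtain ⟨d, rfl⟩ : ∃ d, a = d + 1 := ⟨a - 1, by omega⟩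
    have := hSm L A R (r - (d + 1) + 1) d q hl hq (by omega) (by omega) (by omega) y hy'
      (addco q x) hx'
    have e : d + (r - (d + 1) + 1) = r := by omega
    rwa [e] at this
  · have h2 : a + 1 ≤ A.length ∧ 1 ≤ r - a := by
      rw [not_and_or] at h1
      rcases h1 with h1 | h1
      · omega
      · omega
    obtain ⟨h2, h3⟩ := h2
    rw [← comb_coloop_left A.toFinset q hqA' y x hxq]
    have hy' : addco q y ∈ closure (ZV (A ++ [q]) (a + 1)) := by
      refine hLC.2 (A ++ [q]) (a + 1) q hA1 (by simp) (by omega) (by omega) y ?_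
      rw [erase_append_q hqA]
      exact hy
    have hx' : x ∈ closure (ZV (L ++ [q] ++ R) (r - a)) := by
      refine hLC.1 (L ++ [q] ++ R) (r - a) q hB1 (by simp) (by omega) x ?_
      rw [erase_mid_q hqL]
      exact hx
    have := hSm L A R (r - a) a q hl hq (by omega) (by omega) (by omega) (addco q y) hy' x hx'
    have e : a + (r - a) = r := by omega
    rwa [e] at this

/-- VN -/
theorem vn (hSt : StructStmt) (hDe : DecompStmt) (hSm : SmoothStmt) (hLC : LoopColoopStmt)
    (hUn : UniformStmt) (hTr : ZtrivStmt) (hMi : MinorStmt) : NStmt := by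
  intro l r hl hr
  induction hn : l.length using Nat.strong_induction_on generalizing l r with
  | _ n ih =>
    intro z hz h0
    by_cases hz0 : z = 0
    · rw [hz0]
      exact zero_mem_closure l r hl
    by_cases htr : r ≤ 1 ∨ l.length ≤ r + 1
    · exact triv_closure (hTr l r hl hr htr) (XV_supp hz) h0
    rw [not_or] at htr
    obtain ⟨hr1, hr2⟩ := htr
    have hr2' : 2 ≤ r := by omega
    have hr3' : r + 2 ≤ l.length := by omega
    by_cases hpos : ∀ I ∈ l.toFinset.powersetCard r, 0 < z I
    · exact subset_closure (hUn l r hl hr2' hr3' z hz hpos)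
    by_cases hal : ∀ i ∈ l, AliveV z i
    · -- structure lemma
      have hI : ∃ I ∈ l.toFinset.powersetCard r, z I = 0 := by
        by_contra h
        apply hpos
        intro I hI
        refine lt_of_le_of_ne (h0 I) (fun h2 => h ⟨I, hI, h2.symm⟩)
      obtain ⟨L, A, R, d, rfl, hA, hA2, hd⟩ := hSt l r hl hr2' hr3' z hz h0 hal hI
      obtain ⟨q, hq⟩ := Infinite.exists_notMem_finset (L ++ A ++ R).toFinset
      rw [List.mem_toFinset] at hq
      have hqL : q ∉ L := fun h => hq (by simp [h])
      have hqA : q ∉ A := fun h => hq (by simp [h])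
      have hqR : q ∉ R := fun h => hq (by simp [h])
      have hlen : (L ++ A ++ R).length = A.length + (L ++ R).length := by
        simp only [List.length_append]
        omega
      have hA0 : A ≠ [] := by
        rintro rfl
        simp at hA
      have hB0 : L ++ R ≠ [] := by
        intro h
        rw [h] at hlen
        simp only [List.length_nil] at hlen
        omega
      have hB1 : (L ++ [q] ++ R).Nodup := by
        have h1 : (L ++ R).Nodup := by
          have : (L ++ R).Sublist (L ++ A ++ R) := by
            rw [List.append_assoc]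
            exact (List.sublist_append_right A R).append_left L
          exact hl.sublist this
        have h2 : (q :: (L ++ R)).Nodup := by
          rw [List.nodup_cons]
          refine ⟨?_, h1⟩
          rw [List.mem_append]
          rintro (h | h)
          · exact hqL h
          · exact hqR h
        have h3 : (L ++ [q] ++ R).Perm (q :: (L ++ R)) := by
          rw [List.append_assoc]
          exact List.perm_middle
        exact h3.nodup_iff.mpr h2
      have hLR : (L ++ R).Nodup := by
        have : (L ++ R).Sublist (L ++ A ++ R) := by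
          rw [List.append_assoc]
          exact (List.sublist_append_right A R).append_left L
        exact hl.sublist this
      have hAn : A.Nodup := by
        have : A.Sublist (L ++ A ++ R) := by
          rw [List.append_assoc]
          exact (List.sublist_append_left A R).trans (List.sublist_append_right L (A ++ R))
        exact hl.sublist this
      have hA1 : (A ++ [q]).Nodup := by
        rw [List.nodup_append]
        refine ⟨hAn, List.nodup_singleton q, ?_⟩
        intro a ha b hb
        rw [List.mem_singleton] at hb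
        subst hb
        intro h
        exact hqA (h ▸ ha)
      have hlenB : (L ++ [q] ++ R).length = (L ++ R).length + 1 := by
        simp only [List.length_append, List.length_singleton]
        omega
      rcases hDe L A R r d q hl hq hA0 hB0 z hz h0 hz0 hd with
        ⟨y, hy, x, hx, y0, x0, -, -, b1, b2, b3, b4, rfl⟩ |
        ⟨a, -, har, y, hy, x, hx, y0, x0, y1, x1, rfl⟩
      · have hy' : y ∈ closure (ZV (A ++ [q]) (d + 1)) :=
          ih (A ++ [q]).length (by simp only [List.length_append, List.length_singleton]; omega)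
            (A ++ [q]) (d + 1) hA1 (by simp only [List.length_append, List.length_singleton]; omega) rfl y hy y0
        have hx' : x ∈ closure (ZV (L ++ [q] ++ R) (r - d)) :=
          ih (L ++ [q] ++ R).length (by omega) (L ++ [q] ++ R) (r - d) hB1 (by omega) rfl x hx x0
        have := hSm L A R (r - d) d q hl hq b1 b2 b4 y hy' x hx'
        have e : d + (r - d) = r := by omega
        rwa [e] at this
      · have haA := XV_rank_le hAn hy y1
        have haB := XV_rank_le hLR hx x1
        have hy' : y ∈ closure (ZV A a) := ih A.length (by omega) A a hAn haA rfl y hy y0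
        have hx' : x ∈ closure (ZV (L ++ R) (r - a)) :=
          ih (L ++ R).length (by omega) (L ++ R) (r - a) hLR haB rfl x hx x0
        refine prodv_closure hSm hLC L A R r a q hl hq har (by omega) (by omega) (by omega)
          (by omega) haA haB y x hy' hx' ?_ ?_
        · intro I hI hqI
          have := (Finset.mem_powersetCard.mp (XV_supp hy I hI)).1 hqI
          rw [List.mem_toFinset] at this
          exact hqA this
        · intro I hI hqI
          have := (Finset.mem_powersetCard.mp (XV_supp hx I hI)).1 hqI
          rw [List.mem_toFinset, List.mem_append] at this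
          rcases this with h | h
          · exact hqL h
          · exact hqR h
    · push Not at hal
      obtain ⟨i, hi, hali⟩ := hal
      have hel : (l.erase i).length = l.length - 1 := List.length_erase_of_mem hi
      have hen : (l.erase i).Nodup := hl.erase i
      unfold AliveV at hali
      rw [not_and_or] at hali
      rcases hali with h | h
      · -- loop
        have h1 : ∀ I, z I ≠ 0 → i ∉ I := fun I hI hiI => h ⟨I, hI, hiI⟩
        have h2 : z ∈ XV (l.erase i) r := by
          have := hMi.2.2.1 l r i hl hi z hz
          rwa [del_eq_of_loop h1] at this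
        have h3 : z ∈ closure (ZV (l.erase i) r) :=
          ih (l.erase i).length (by omega) (l.erase i) r hen (by omega) rfl z h2 h0
        exact hLC.1 l r i hl hi (by omega) z h3
      · -- coloop
        have h1 : ∀ I, z I ≠ 0 → i ∈ I := by
          intro I hI
          by_contra hiI
          exact h ⟨I, hI, hiI⟩
        have h2 : con i z ∈ XV (l.erase i) (r - 1) := hMi.2.2.2 l r i hl hi (by omega) z hz
        have h3 : con i z ∈ closure (ZV (l.erase i) (r - 1)) :=
          ih (l.erase i).length (by omega) (l.erase i) (r - 1) hen (by omega) rfl _ h2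
            (con_nonneg h0)
        have := hLC.2 l r i hl hi (by omega) (by omega) (con i z) h3
        rwa [addco_con_of_coloop h1] at this

end H6

end ABCT
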